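import Mathlib
import Pool.Agent.MP_1ac210_gt.H95.Main

set_option autoImplicit false

universe u

namespace Pool.Agent.Results.MP_1ac210_gt.HomeoConnected

open Set

/-- A subcontinuum: a nonempty compact connected subset. -/
def IsContinuum {X : Type u} [TopologicalSpace X] (A : Set X) : Prop :=
  IsCompact A ∧ IsConnected A

/-- Not the union of two proper subcontinua. -/
def Indecomposable {X : Type u} [TopologicalSpace X] (A : Set X) : Prop :=
  ¬ ∃ B C : Set X, IsContinuum B ∧ IsContinuum C ∧ B ⊂ A ∧ C ⊂ A ∧ B ∪ C = A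

/-- Every subcontinuum is indecomposable. -/
def HereditarilyIndecomposable (X : Type u) [TopologicalSpace X] : Prop :=
  ∀ A : Set X, IsContinuum A → Indecomposable A

/-- For every `ε > 0` there is a continuous surjection onto `[0, 1]` with fibres of diameter
less than `ε`. -/
def Chainable (X : Type u) [MetricSpace X] : Prop :=
  ∀ ε : ℝ, 0 < ε → ∃ f : X → unitInterval, Continuous f ∧ Function.Surjective f ∧
    ∀ t, Metric.diam (f ⁻¹' {t}) < ε

/-- The compact-open topology on the group of self-homeomorphisms, induced from `C(X, X)`. -/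
@[reducible] def compactOpen (X : Type u) [TopologicalSpace X] : TopologicalSpace (X ≃ₜ X) :=
  TopologicalSpace.induced (fun h : X ≃ₜ X => (h : C(X, X))) ContinuousMap.compactOpen

variable {P : Type u} [MetricSpace P] [CompactSpace P]

lemma nested (h : HereditarilyIndecomposable P) {A B : Set P} (hA : IsContinuum A)
    (hB : IsContinuum B) (hAB : (A ∩ B).Nonempty) : A ⊆ B ∨ B ⊆ A := by
  by_contra hn
  rw [not_or] at hn
  refine h (A ∪ B) ⟨hA.1.union hB.1, hA.2.union hAB hB.2⟩ ⟨A, B, hA, hB, ?_, ?_, rfl⟩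
  · exact ⟨subset_union_left, fun h' => hn.2 (subset_union_right.trans h')⟩
  · exact ⟨subset_union_right, fun h' => hn.1 (subset_union_left.trans h')⟩

lemma fine (h : Chainable P) (ε : ℝ) (hε : 0 < ε) :
    ∃ g : P → ℝ, Continuous g ∧ ∀ p q, |g p - g q| ≤ 1 → dist p q ≤ ε := by
  obtain ⟨f, hf, -, hd⟩ := h ε hε
  have hK : IsCompact {z : P × P | ε ≤ dist z.1 z.2} :=
    (isClosed_le continuous_const (continuous_fst.dist continuous_snd)).isCompact
  have hc : Continuous fun z : P × P => |(f z.1 : ℝ) - f z.2| := by fun_prop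
  obtain ⟨δ, hδ, hδ'⟩ := hK.exists_forall_le' (a := 0) hc.continuousOn (fun z hz => by
    rw [abs_pos, sub_ne_zero]
    intro e
    have e' : f z.1 = f z.2 := Subtype.ext e
    have := Metric.dist_le_diam_of_mem (s := f ⁻¹' {f z.2}) Metric.isBounded_of_compactSpace
      (show z.1 ∈ _ from e') (show z.2 ∈ _ from rfl)
    exact absurd (hd (f z.2)) (not_lt.2 (le_trans hz this)))
  refine ⟨fun p => 2 / δ * f p, by fun_prop, fun p q hpq => ?_⟩
  by_contra hn
  have h1 := hδ' (p, q) (le_of_lt (not_le.1 hn))
  rw [← mul_sub, abs_mul, abs_of_pos (by positivity : 0 < 2 / δ), div_mul_eq_mul_div,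
    div_le_one hδ] at hpq
  simp only at h1
  linarith

theorem result (P : Type u) [MetricSpace P] [CompactSpace P] [ConnectedSpace P] [Nontrivial P]
    (h1 : HereditarilyIndecomposable P) (h2 : Chainable P) :
    @ConnectedSpace (P ≃ₜ P) (compactOpen P) := by
  let Q : Type := range (kuratowskiEmbedding P)
  let e : P ≃ᵢ Q := (kuratowskiEmbedding.isometry P).isometryEquivOnRange
  let e' : P ≃ₜ Q := e.toHomeomorph
  have : CompactSpace Q := e'.compactSpace
  have : ConnectedSpace Q := e'.surjective.connectedSpace e'.continuous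
  have : Nontrivial Q := e'.injective.nontrivial
  have hHI : Pool.Agent.MP_1ac210_gt.H95.HI Q := by
    intro A B a1 a2 b1 b2 hAB
    have := nested h1 (A := e' ⁻¹' A) (B := e' ⁻¹' B)
      ⟨(a1.preimage e'.continuous).isCompact, e'.isConnected_preimage.2 a2⟩
      ⟨(b1.preimage e'.continuous).isCompact, e'.isConnected_preimage.2 b2⟩
      (by rw [← preimage_inter]; exact hAB.preimage e'.surjective)
    rwa [e'.surjective.preimage_subset_preimage_iff, e'.surjective.preimage_subset_preimage_iff]
      at this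
  have hF : Pool.Agent.MP_1ac210_gt.H95.Fine Q := by
    intro ε hε
    obtain ⟨g, hg, hg'⟩ := fine h2 ε hε
    refine ⟨fun q => g (e.symm q), hg.comp e.symm.continuous, fun p q hpq => ?_⟩
    rw [← e.symm.dist_eq]
    exact hg' _ _ hpq
  have hpre := Pool.Agent.MP_1ac210_gt.H95.preconnected hHI hF
  let c : C(Q, Q) → C(P, P) := fun f => (e'.symm : C(Q, P)).comp (f.comp (e' : C(P, Q)))
  have hc : Continuous c :=
    (ContinuousMap.continuous_postcomp _).comp (ContinuousMap.continuous_precomp _)
  let := compactOpen P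
  have hi : Topology.IsInducing (fun h : P ≃ₜ P => (h : C(P, P))) := ⟨rfl⟩
  have him : (fun h : P ≃ₜ P => (h : C(P, P))) '' univ =
      c '' {f : C(Q, Q) | Function.Bijective (f : Q → Q)} := by
    ext f
    constructor
    · rintro ⟨h, -, rfl⟩
      refine ⟨(e'.symm.trans (h.trans e') : Q ≃ₜ Q), (e'.symm.trans (h.trans e')).bijective, ?_⟩
      ext x
      simp [c]
    · rintro ⟨g, hg, rfl⟩
      let g' : Q ≃ₜ Q := Continuous.homeoOfEquivCompactToT2 (f := Equiv.ofBijective g hg)
        g.continuous
      exact ⟨e'.trans (g'.trans e'.symm), trivial, rfl⟩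
  have : PreconnectedSpace (P ≃ₜ P) :=
    ⟨hi.isPreconnected_image.1 (him ▸ hpre.image c hc.continuousOn)⟩
  exact ⟨⟨Homeomorph.refl P⟩⟩

end Pool.Agent.Results.MP_1ac210_gt.HomeoConnected
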